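import Mathlib
import Pool.Agent.Q194.VNA4
open scoped InnerProductSpace
open Filter Topology

namespace Pool.Agent.Results.MP_de1b00_an.ResidualUnitaries
universe u
set_option linter.unusedSectionVars false
open Pool.Agent.Q194.VNA
variable {H : Type u} [NormedAddCommGroup H] [InnerProductSpace ℂ H] [CompleteSpace H]

/-- The closed unit ball of the von Neumann algebra `M ⊆ B(H)`. -/
def Ball (M : VonNeumannAlgebra H) : Type u := {x : H →L[ℂ] H // x ∈ M ∧ ‖x‖ ≤ 1}

/-- The weak* (σ-weak) topology on the ball: the coarsest topology for which all normal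
functionals `x ↦ ∑ₙ ⟨ηₙ, x ξₙ⟩`, with `∑‖ξₙ‖² < ∞` and `∑‖ηₙ‖² < ∞`, are continuous. -/
noncomputable def weakStar (M : VonNeumannAlgebra H) : TopologicalSpace (Ball M) :=
  ⨅ p : {p : (ℕ → H) × (ℕ → H) // (Summable fun n => ‖p.1 n‖ ^ 2) ∧ Summable fun n => ‖p.2 n‖ ^ 2},
    TopologicalSpace.induced (fun x : Ball M => ∑' n, ⟪p.1.2 n, x.1 (p.1.1 n)⟫_ℂ) inferInstance

/-- Property (R): the unitaries are residual in the ball for the weak* topology, i.e. the
non-unitary elements are of first category. -/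
def PropertyR (M : VonNeumannAlgebra H) : Prop :=
  @IsMeagre (Ball M) (weakStar M) {x | ¬ (star x.1 * x.1 = 1 ∧ x.1 * star x.1 = 1)}

/-- `M` is σ-finite: every set of pairwise orthogonal nonzero projections of `M` is countable. -/
def SigmaFinite (M : VonNeumannAlgebra H) : Prop :=
  ∀ Q : Set (H →L[ℂ] H), (∀ q ∈ Q, q ∈ M ∧ IsStarProjection q ∧ q ≠ 0) →
    (∀ p ∈ Q, ∀ q ∈ Q, p ≠ q → p * q = 0) → Q.Countable

/-- `M` has no nonzero finite-dimensional direct summand: if `z` is a central projection of `M`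
and `zM` is finite-dimensional, then `z = 0`. -/
def NoFiniteDimensionalSummand (M : VonNeumannAlgebra H) : Prop :=
  ∀ z ∈ M, IsStarProjection z → (∀ x ∈ M, z * x = x * z) →
    (∃ F : Submodule ℂ (H →L[ℂ] H), FiniteDimensional ℂ F ∧ ∀ x ∈ M, z * x ∈ F) → z = 0

/-- coefficient map -/
noncomputable def PH (M : VonNeumannAlgebra H) (x : Ball M) : H × H → ℂ := phi x.1

lemma weakStar_eq (M : VonNeumannAlgebra H) :
    weakStar M = TopologicalSpace.induced (PH M) inferInstance := by
  apply le_antisymm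
  · rw [← continuous_iff_le_induced]
    letI := weakStar M
    refine continuous_pi fun p => ?_
    have hs : ∀ ξ : H, Summable fun n => ‖(Pi.single (M := fun _ : ℕ => H) 0 ξ) n‖ ^ 2 := by
      intro ξ
      refine summable_of_ne_finset_zero (s := {0}) fun n hn => ?_
      rw [Finset.mem_singleton] at hn
      simp [Pi.single_apply, hn]
    have hc : Continuous (fun x : Ball M => ∑' n, ⟪(Pi.single (M := fun _ : ℕ => H) 0 p.2) n,
        x.1 ((Pi.single (M := fun _ : ℕ => H) 0 p.1) n)⟫_ℂ) := by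
      rw [continuous_iff_le_induced]
      exact iInf_le (fun p : {p : (ℕ → H) × (ℕ → H) // (Summable fun n => ‖p.1 n‖ ^ 2) ∧
        Summable fun n => ‖p.2 n‖ ^ 2} => TopologicalSpace.induced
          (fun x : Ball M => ∑' n, ⟪p.1.2 n, x.1 (p.1.1 n)⟫_ℂ) inferInstance)
        ⟨(Pi.single (M := fun _ : ℕ => H) 0 p.1, Pi.single (M := fun _ : ℕ => H) 0 p.2), hs _, hs _⟩
    refine hc.congr fun x => ?_
    rw [tsum_eq_single 0]
    · simp [PH, phi]
    · intro n hn
      simp [Pi.single_apply, hn]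
  · refine le_iInf fun p => ?_
    letI : TopologicalSpace (Ball M) := TopologicalSpace.induced (PH M) inferInstance
    rw [← continuous_iff_le_induced]
    have hPH : Continuous (PH M) := continuous_induced_dom
    refine continuous_tsum (u := fun n => ‖p.1.1 n‖ * ‖p.1.2 n‖) ?_ ?_ ?_
    · intro n
      exact (continuous_apply (p.1.1 n, p.1.2 n)).comp hPH
    · refine Summable.of_nonneg_of_le (fun n => by positivity) (fun n => ?_)
        ((p.2.1.add p.2.2))
      nlinarith [sq_nonneg (‖p.1.1 n‖ - ‖p.1.2 n‖), sq_nonneg ‖p.1.1 n‖, sq_nonneg ‖p.1.2 n‖]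
    · intro n x
      calc ‖⟪p.1.2 n, x.1 (p.1.1 n)⟫_ℂ‖ ≤ ‖p.1.2 n‖ * ‖x.1 (p.1.1 n)‖ := norm_inner_le_norm _ _
        _ ≤ ‖p.1.2 n‖ * (1 * ‖p.1.1 n‖) := by
          gcongr
          exact (x.1.le_opNorm _).trans (by gcongr; exact x.2.2)
        _ = _ := by ring

lemma PH_inj (M : VonNeumannAlgebra H) : Function.Injective (PH M) :=
  fun _ _ h => Subtype.ext (phi_inj h)

lemma PH_range (M : VonNeumannAlgebra H) : IsCompact (Set.range (PH M)) := by
  set Z : Set (H × H → ℂ) := {f | ∀ y ∈ M.commutant, ∀ ξ η, f (ξ, star y η) = f (y ξ, η)} with hZ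
  have hZc : IsClosed Z := by
    rw [hZ]
    simp only [Set.setOf_forall]
    exact isClosed_iInter fun y => isClosed_iInter fun _ => isClosed_iInter fun ξ =>
        isClosed_iInter fun η => isClosed_eq (by fun_prop) (by fun_prop)
  have e : Set.range (PH M) = phi '' {x : H →L[ℂ] H | ‖x‖ ≤ 1} ∩ Z := by
    ext f
    constructor
    · rintro ⟨x, rfl⟩
      refine ⟨⟨x.1, x.2.2, rfl⟩, ?_⟩
      intro y hy ξ η
      have h2 := (mem_iff_comm M x.1).1 x.2.1 y hy
      simp only [PH, phi]
      rw [ContinuousLinearMap.star_eq_adjoint, ContinuousLinearMap.adjoint_inner_left]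
      exact congrArg (fun T : H →L[ℂ] H => ⟪η, T ξ⟫_ℂ) h2
    · rintro ⟨⟨x, hx, rfl⟩, hz⟩
      refine ⟨⟨x, ?_, hx⟩, rfl⟩
      rw [mem_iff_comm]
      intro y hy
      apply phi_inj
      funext p
      have := hz y hy p.1 p.2
      simp only [phi] at this ⊢
      rw [ContinuousLinearMap.star_eq_adjoint, ContinuousLinearMap.adjoint_inner_left] at this
      exact this
  rw [e]
  exact ball_compact.inter_right hZc

/-- countable total sets for the commutant make `M` σ-finite -/
lemma sigmaFinite_of_countable {M : VonNeumannAlgebra H} {X : Set H} (hX : X.Countable)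
    (hp : pr M X = 1) : SigmaFinite M := by
  classical
  intro Q hQ horth
  -- each ξ sees countably many
  have h1 : ∀ ξ : H, {q : Q | q.1 ξ ≠ 0}.Countable := by
    intro ξ
    have hB : ∀ F : Finset Q, ∑ q ∈ F, ‖q.1 ξ‖ ^ 2 ≤ ‖ξ‖ ^ 2 := by
      intro F
      set z : H →L[ℂ] H := ∑ q ∈ F, q.1 with hz
      have hqs : ∀ q : Q, star q.1 = q.1 := fun q => (hQ q.1 q.2).2.1.isSelfAdjoint.star_eq
      have hqq : ∀ q : Q, q.1 * q.1 = q.1 := fun q => (hQ q.1 q.2).2.1.isIdempotentElem
      have hzs : star z = z := by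
        rw [hz, star_sum]
        exact Finset.sum_congr rfl fun q _ => hqs q
      have hqz : ∀ q ∈ F, q.1 * z = q.1 := by
        intro q hq
        rw [hz, Finset.mul_sum, Finset.sum_eq_single q]
        · exact hqq q
        · intro q' _ hne
          exact horth q.1 q.2 q'.1 q'.2 (fun h => hne (Subtype.ext h.symm))
        · intro h; exact absurd hq h
      have hzz : z * z = z := by
        conv_lhs => rw [hz, Finset.sum_mul]
        rw [hz]
        refine Finset.sum_congr rfl fun q hq => ?_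
        rw [← hz, hqz q hq]
      have hzξ : z ξ = z (z ξ) := (congrArg (fun T : H →L[ℂ] H => T ξ) hzz).symm
      have h2 : (⟪ξ, z ξ⟫_ℂ).re = ‖z ξ‖ ^ 2 := by
        rw [hzξ, ← ContinuousLinearMap.adjoint_inner_left, ← ContinuousLinearMap.star_eq_adjoint,
          hzs, inner_self_eq_norm_sq_to_K, ← hzξ]
        norm_cast
      have h3 : (⟪ξ, z ξ⟫_ℂ).re = ∑ q ∈ F, ‖q.1 ξ‖ ^ 2 := by
        rw [hz]
        simp only [sum_apply, inner_sum, Complex.re_sum]
        refine Finset.sum_congr rfl fun q _ => ?_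
        have : q.1 ξ = q.1 (q.1 ξ) := (congrArg (fun T : H →L[ℂ] H => T ξ) (hqq q)).symm
        rw [this, ← ContinuousLinearMap.adjoint_inner_left, ← ContinuousLinearMap.star_eq_adjoint,
          hqs, inner_self_eq_norm_sq_to_K, ← this]
        norm_cast
      have h4 : ‖z ξ‖ ^ 2 ≤ ‖ξ‖ * ‖z ξ‖ := by
        rw [← h2]
        exact (Complex.re_le_norm _).trans (norm_inner_le_norm _ _)
      rw [← h3, h2]
      nlinarith [norm_nonneg ξ, norm_nonneg (z ξ), sq_nonneg (‖ξ‖ - ‖z ξ‖)]
    have hsum : Summable fun q : Q => ‖q.1 ξ‖ ^ 2 :=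
      summable_of_sum_le (fun _ => by positivity) hB
    have := hsum.countable_support
    refine this.mono fun q hq => ?_
    simp only [Function.mem_support]
    have : 0 < ‖q.1 ξ‖ := norm_pos_iff.2 hq
    positivity
  have h2 : (⋃ ξ ∈ X, {q : Q | q.1 ξ ≠ 0}).Countable := hX.biUnion fun ξ _ => h1 ξ
  have h3 : (Set.univ : Set Q).Countable := by
    refine h2.mono fun q _ => ?_
    by_contra hcon
    simp only [Set.mem_iUnion, not_exists] at hcon
    have hq0 : ∀ ξ ∈ X, q.1 ξ = 0 := by
      intro ξ hξ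
      by_contra hne
      exact hcon ξ hξ hne
    apply (hQ q.1 q.2).2.2
    have hker : cyc M X ≤ q.1.ker := by
      refine Submodule.topologicalClosure_minimal _ ?_ q.1.isClosed_ker
      rw [Submodule.span_le]
      rintro ζ ⟨a, ha, ξ, hξ, rfl⟩
      rw [SetLike.mem_coe, LinearMap.mem_ker]
      have hc := (mem_iff_comm M q.1).1 (hQ q.1 q.2).1 a ha
      have : q.1 (a ξ) = a (q.1 ξ) := (congrArg (fun T : H →L[ℂ] H => T ξ) hc).symm
      change q.1 (a ξ) = 0
      rw [this, hq0 ξ hξ, map_zero]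
    ext ζ
    have hζ : ζ ∈ cyc M X := by
      have : pr M X ζ = ζ := by rw [hp]; rfl
      exact Submodule.starProjection_eq_self_iff.1 this
    exact hker hζ
  have := h3.image Subtype.val
  simpa using this

/-- a σ-finite algebra has a countable separating set of vectors -/
lemma exists_separating {M : VonNeumannAlgebra H} (hM : SigmaFinite M) :
    ∃ T : Set H, T.Countable ∧ ∀ x ∈ M, (∀ ξ ∈ T, x ξ = 0) → x = 0 := by
  classical
  set 𝒮 : Set (Set H) := {T | (∀ ξ ∈ T, ξ ≠ 0) ∧ ∀ ξ ∈ T, ∀ η ∈ T, ξ ≠ η →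
    ∀ a ∈ M.commutant, ⟪a ξ, η⟫_ℂ = 0} with h𝒮
  obtain ⟨T, -, hTmax⟩ := zorn_subset_nonempty 𝒮 (by
    intro c hc hchain hne
    refine ⟨⋃₀ c, ⟨?_, ?_⟩, fun s hs => Set.subset_sUnion_of_mem hs⟩
    · rintro x ⟨s, hs, hx⟩
      exact (hc hs).1 x hx
    · rintro x ⟨s, hs, hx⟩ y ⟨s', hs', hy⟩ hne
      rcases hchain.total hs hs' with h | h
      · exact (hc hs').2 x (h hx) y hy hne
      · exact (hc hs).2 x hx y (h hy) hne) ∅ ⟨by simp, by simp⟩
  have hT := hTmax.prop
  have hmax : ∀ ζ : H, (∀ ξ ∈ T, ∀ a ∈ M.commutant, ⟪a ξ, ζ⟫_ℂ = 0) → ζ = 0 := by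
    intro ζ hζ
    by_contra hne
    have hζT : ζ ∉ T := by
      intro h
      have := hζ ζ h 1 (one_mem _)
      exact hne (inner_self_eq_zero.1 this)
    have hmem : insert ζ T ∈ 𝒮 := by
      refine ⟨?_, ?_⟩
      · rintro ξ (rfl | hξ)
        · exact hne
        · exact hT.1 ξ hξ
      · rintro ξ (rfl | hξ) η (rfl | hη) hneq a ha
        · exact absurd rfl hneq
        · have := hζ η hη (star a) (star_mem ha)
          rw [ContinuousLinearMap.star_eq_adjoint, ContinuousLinearMap.adjoint_inner_left] at this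
          rw [← inner_conj_symm, this, map_zero]
        · exact hζ ξ hξ a ha
        · exact hT.2 ξ hξ η hη hneq a ha
    have := hTmax.le_of_ge hmem (Set.subset_insert _ _)
    exact hζT (this (Set.mem_insert _ _))
  refine ⟨T, ?_, ?_⟩
  · -- countability
    have horth : ∀ ξ ∈ T, ∀ η ∈ T, ξ ≠ η → pr M {ξ} * pr M {η} = 0 := by
      intro ξ hξ η hη hne
      have hle : cyc M {η} ≤ (cyc M {ξ})ᗮ := by
        refine Submodule.topologicalClosure_minimal _ ?_ (Submodule.isClosed_orthogonal _)
        rw [Submodule.span_le]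
        rintro _ ⟨b, hb, η', hη', rfl⟩
        obtain rfl : η' = η := hη'
        rw [SetLike.mem_coe, Submodule.mem_orthogonal]
        intro u hu
        have hle2 : cyc M {ξ} ≤ (Submodule.span ℂ {b η'})ᗮ := by
          refine Submodule.topologicalClosure_minimal _ ?_ (Submodule.isClosed_orthogonal _)
          rw [Submodule.span_le]
          rintro _ ⟨a, ha, ξ', hξ', rfl⟩
          obtain rfl : ξ' = ξ := hξ'
          rw [SetLike.mem_coe, Submodule.mem_orthogonal_singleton_iff_inner_left]
          have := hT.2 ξ' hξ η' hη hne (star b * a) (mul_mem (star_mem hb) ha)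
          have e : (star b * a) ξ' = (star b) (a ξ') := rfl
          rw [e, ContinuousLinearMap.star_eq_adjoint, ContinuousLinearMap.adjoint_inner_left] at this
          exact this
        have := hle2 hu
        rwa [Submodule.mem_orthogonal_singleton_iff_inner_left] at this
      ext ζ
      have h1 : pr M {η} ζ ∈ cyc M {η} := Submodule.starProjection_apply_mem _ _
      have h2 := hle h1
      change pr M {ξ} (pr M {η} ζ) = 0
      exact (Submodule.starProjection_apply_eq_zero_iff _).2 h2
    have hne0 : ∀ ξ ∈ T, pr M {ξ} ≠ 0 := by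
      intro ξ hξ h0
      have h1 : pr M {ξ} ξ = ξ := pr_apply (mem_cyc (a := 1) (one_mem _) rfl)
      rw [h0] at h1
      exact hT.1 ξ hξ h1.symm
    have hcount := hM ((fun ξ => pr M {ξ}) '' T) (by
      rintro _ ⟨ξ, hξ, rfl⟩
      exact ⟨pr_mem M _, pr_proj M _, hne0 ξ hξ⟩) (by
      rintro _ ⟨ξ, hξ, rfl⟩ _ ⟨η, hη, rfl⟩ hne
      exact horth ξ hξ η hη (fun h => hne (by rw [h])))
    refine Set.countable_of_injective_of_countable_image ?_ hcount
    intro ξ hξ η hη heq
    by_contra hne
    have h1 := horth ξ hξ η hη hne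
    simp only at heq
    rw [← heq, (pr_proj M {ξ}).isIdempotentElem] at h1
    exact hne0 ξ hξ h1
  · intro x hx h0
    have hz : star x = 0 := by
      ext ζ
      apply hmax
      intro ξ hξ a ha
      rw [ContinuousLinearMap.star_eq_adjoint, ContinuousLinearMap.adjoint_inner_right]
      have hc := (mem_iff_comm M x).1 hx a ha
      have : x (a ξ) = a (x ξ) := (congrArg (fun T : H →L[ℂ] H => T ξ) hc).symm
      rw [this, h0 ξ hξ, map_zero, inner_zero_left]
    rw [← star_star x, hz, star_zero]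


lemma unitary_set (M : VonNeumannAlgebra H) (x : Ball M) :
    (star x.1 * x.1 = 1 ∧ x.1 * star x.1 = 1) ↔ x.1 ∈ UU M :=
  ⟨fun h => ⟨x.2.1, h.1, h.2⟩, fun h => ⟨h.2.1, h.2.2⟩⟩

/-- **Characterisation of property (R).** A von Neumann algebra has property (R) if and only if
it is σ-finite and has no nonzero finite-dimensional direct summand. -/
theorem result (H : Type u) [NormedAddCommGroup H] [InnerProductSpace ℂ H] [CompleteSpace H]
    (M : VonNeumannAlgebra H) :
    PropertyR M ↔ SigmaFinite M ∧ NoFiniteDimensionalSummand M := by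
  classical
  unfold PropertyR
  rw [weakStar_eq]
  let τ : TopologicalSpace (Ball M) := TopologicalSpace.induced (PH M) inferInstance
  have hind : Topology.IsInducing (PH M) := ⟨rfl⟩
  have hcont : Continuous (PH M) := hind.continuous
  haveI : CompactSpace (Ball M) := by
    rw [← isCompact_univ_iff, hind.isCompact_iff, Set.image_univ]
    exact PH_range M
  haveI : T2Space (Ball M) := T2Space.of_injective_continuous (PH_inj M) hcont
  have hzero : (0 : H →L[ℂ] H) ∈ M ∧ ‖(0 : H →L[ℂ] H)‖ ≤ 1 := ⟨zero_mem _, by simp⟩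
  haveI : Nonempty (Ball M) := ⟨⟨0, hzero⟩⟩
  set U : Set (Ball M) := {x | star x.1 * x.1 = 1 ∧ x.1 * star x.1 = 1} with hU
  have hcompl : {x : Ball M | ¬ (star x.1 * x.1 = 1 ∧ x.1 * star x.1 = 1)}ᶜ = U := by
    ext x; simp [hU]
  constructor
  · intro hR
    change {x : Ball M | ¬ (star x.1 * x.1 = 1 ∧ x.1 * star x.1 = 1)}ᶜ ∈ residual (Ball M) at hR
    rw [hcompl, mem_residual] at hR
    obtain ⟨t, htU, htG, htD⟩ := hR
    constructor
    · -- σ-finiteness
      obtain ⟨x, hx⟩ := htD.nonempty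
      obtain ⟨T, hTo, hTc, rfl⟩ := htG
      have hchoice : ∀ o ∈ T, ∃ I : Finset (H × H), ∀ y : Ball M,
          (∀ p ∈ I, PH M y p = PH M x p) → y ∈ o := by
        intro o ho
        obtain ⟨o', ho', rfl⟩ := isOpen_induced_iff.1 (hTo o ho)
        obtain ⟨I, u, hu, hsub⟩ := isOpen_pi_iff.1 ho' (PH M x) (hx _ ho)
        refine ⟨I, fun y hy => hsub ?_⟩
        intro p hp
        rw [hy p hp]
        exact (hu p hp).2
      choose! I hI using hchoice
      set X : Set H := (⋃ o ∈ T, ((I o).image Prod.fst ∪ (I o).image Prod.snd : Finset H)) with hX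
      have hXc : X.Countable := by
        rw [hX]
        exact hTc.biUnion fun o _ => (Finset.countable_toSet _)
      refine sigmaFinite_of_countable hXc ?_
      set p := pr M X with hp
      have hpM : p ∈ M := pr_mem M X
      have hpp : p * p = p := (pr_proj M X).isIdempotentElem
      have hps : star p = p := (pr_proj M X).isSelfAdjoint.star_eq
      have hpn : ‖p‖ ≤ 1 := Submodule.starProjection_norm_le _
      have hyB : p * x.1 * p ∈ M ∧ ‖p * x.1 * p‖ ≤ 1 := by
        refine ⟨mul_mem (mul_mem hpM x.2.1) hpM, ?_⟩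
        calc ‖p * x.1 * p‖ ≤ ‖p * x.1‖ * ‖p‖ := norm_mul_le _ _
          _ ≤ (‖p‖ * ‖x.1‖) * ‖p‖ := by gcongr; exact norm_mul_le _ _
          _ ≤ (1 * 1) * 1 := by
            gcongr
            exact x.2.2
          _ = 1 := by norm_num
      have hXp : ∀ ξ ∈ X, p ξ = ξ := fun ξ hξ => pr_apply (mem_cyc (a := 1) (one_mem _) hξ)
      have hyt : (⟨p * x.1 * p, hyB⟩ : Ball M) ∈ ⋂₀ T := by
        intro o ho
        apply hI o ho
        intro q hq
        have h1 : q.1 ∈ X := by
          rw [hX]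
          refine Set.mem_biUnion ho ?_
          exact Finset.mem_coe.2 (Finset.mem_union_left _ (Finset.mem_image_of_mem _ hq))
        have h2 : q.2 ∈ X := by
          rw [hX]
          refine Set.mem_biUnion ho ?_
          exact Finset.mem_coe.2 (Finset.mem_union_right _ (Finset.mem_image_of_mem _ hq))
        simp only [PH, phi]
        change ⟪q.2, p (x.1 (p q.1))⟫_ℂ = _
        rw [← ContinuousLinearMap.adjoint_inner_left, ← ContinuousLinearMap.star_eq_adjoint, hps,
          hXp _ h1, hXp _ h2]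
      have hyU := (htU hyt).1
      simp only at hyU
      have h0 : (p * x.1 * p) * (1 - p) = 0 := by
        rw [mul_assoc, mul_sub, mul_one, hpp, sub_self, mul_zero]
      have h1 : (1 : H →L[ℂ] H) - p = 0 := by
        calc (1 : H →L[ℂ] H) - p = (star (p * x.1 * p) * (p * x.1 * p)) * (1 - p) := by
              rw [hyU, one_mul]
          _ = 0 := by rw [mul_assoc, h0, mul_zero]
      exact (sub_eq_zero.1 h1).symm
    · -- no finite-dimensional summand
      intro z hzM hz hzc ⟨F, hF, hFz⟩
      by_contra hz0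
      have hzz : z * z = z := hz.isIdempotentElem
      have hzs : star z = z := hz.isSelfAdjoint.star_eq
      let ψ : F →ₗ[ℂ] (H × H → ℂ) :=
        { toFun := fun y => phi (y : H →L[ℂ] H)
          map_add' := by intro x y; funext p; simp [phi, inner_add_right]
          map_smul' := by intro c y; funext p; simp [phi, inner_smul_right] }
      have hψ : LinearMap.ker ψ = ⊥ := by
        rw [LinearMap.ker_eq_bot]
        intro y y' h
        exact Subtype.ext (phi_inj h)
      have hemb := LinearMap.isClosedEmbedding_of_injective hψ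
      obtain ⟨O', hO', hO'e⟩ := hemb.isInducing.isOpen_iff.1
        (Metric.isOpen_ball (x := (0 : F)) (ε := 1))
      set O : Set (Ball M) := {x | ‖z * x.1‖ < 1} with hO
      have hOe : O = {x : Ball M | (fun p : H × H => PH M x (p.1, z p.2)) ∈ O'} := by
        ext x
        have e1 : (fun p : H × H => PH M x (p.1, z p.2)) = ψ ⟨z * x.1, hFz _ x.2.1⟩ := by
          funext p
          change ⟪z p.2, x.1 p.1⟫_ℂ = ⟪p.2, z (x.1 p.1)⟫_ℂ
          have h := ContinuousLinearMap.adjoint_inner_left z (x.1 p.1) p.2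
          rw [← ContinuousLinearMap.star_eq_adjoint, hzs] at h
          exact h
        rw [hO, Set.mem_setOf_eq, Set.mem_setOf_eq, e1]
        have e2 : ψ ⟨z * x.1, hFz _ x.2.1⟩ ∈ O' ↔
            (⟨z * x.1, hFz _ x.2.1⟩ : F) ∈ Metric.ball (0 : F) 1 := by
          rw [← hO'e]; rfl
        rw [e2, mem_ball_zero_iff]
        rfl
      have hOo : IsOpen O := by
        rw [hOe]
        have : Continuous fun x : Ball M => (fun p : H × H => PH M x (p.1, z p.2)) := by fun_prop
        exact hO'.preimage this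
      have hOne : O.Nonempty := by
        refine ⟨⟨0, hzero⟩, ?_⟩
        change ‖z * (0 : H →L[ℂ] H)‖ < 1
        simp
      obtain ⟨x, hxO, hxt⟩ := htD.inter_open_nonempty O hOo hOne
      have hxU := htU hxt
      have hzx : ‖z * x.1‖ < 1 := hxO
      have h1 : z = (z * x.1) * star x.1 := by rw [mul_assoc, hxU.2, mul_one]
      have h2 : ‖z‖ ≤ ‖z * x.1‖ := by
        calc ‖z‖ = ‖(z * x.1) * star x.1‖ := by rw [← h1]
          _ ≤ ‖z * x.1‖ * ‖star x.1‖ := norm_mul_le _ _
          _ ≤ ‖z * x.1‖ * 1 := by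
            gcongr
            rw [norm_star]; exact x.2.2
          _ = _ := mul_one _
      have h3 : ‖z‖ * ‖z‖ = ‖z‖ := by
        rw [← CStarRing.norm_star_mul_self (x := z), hzs, hzz]
      have h4 : 0 < ‖z‖ := norm_pos_iff.2 hz0
      nlinarith
  · rintro ⟨hsf, hnf⟩
    have hNF : NoFin M := hnf
    change {x : Ball M | ¬ (star x.1 * x.1 = 1 ∧ x.1 * star x.1 = 1)}ᶜ ∈ residual (Ball M)
    rw [hcompl]
    have hdense : Dense U := by
      intro x
      rw [hind.closure_eq_preimage_closure_image, Set.mem_preimage]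
      have h := unitaries_dense hNF x.2.1 x.2.2
      have e : PH M '' U = phi '' UU M := by
        ext f
        constructor
        · rintro ⟨y, hy, rfl⟩
          exact ⟨y.1, (unitary_set M y).1 hy, rfl⟩
        · rintro ⟨u, hu, rfl⟩
          have hn : ‖u‖ ≤ 1 := by
            have h2 : ‖u‖ * ‖u‖ ≤ 1 := by
              rw [← CStarRing.norm_star_mul_self (x := u), hu.2.1]
              exact ContinuousLinearMap.norm_id_le
            nlinarith [norm_nonneg u]
          exact ⟨⟨u, hu.1, hn⟩, ⟨hu.2.1, hu.2.2⟩, rfl⟩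
      rw [e]
      exact h
    refine residual_of_dense_Gδ ?_ hdense
    obtain ⟨T, hTc, hTs⟩ := exists_separating hsf
    -- open sets
    have hopen : ∀ (ξ : H) (c : ℝ), IsOpen {x : Ball M | c < ‖x.1 ξ‖} := by
      intro ξ c
      have e : {x : Ball M | c < ‖x.1 ξ‖} =
          ⋃ η ∈ {η : H | ‖η‖ ≤ 1}, {x : Ball M | c < ‖PH M x (ξ, η)‖} := by
        ext x
        simp only [Set.mem_setOf_eq, Set.mem_iUnion, exists_prop]
        constructor
        · intro h
          by_cases h0 : x.1 ξ = 0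
          · refine ⟨0, by simp, ?_⟩
            rw [h0, norm_zero] at h
            simpa [PH, phi] using h
          · have hn : 0 < ‖x.1 ξ‖ := norm_pos_iff.2 h0
            refine ⟨((‖x.1 ξ‖⁻¹ : ℝ) : ℂ) • x.1 ξ, ?_, ?_⟩
            · rw [norm_smul, Complex.norm_real, Real.norm_eq_abs, abs_of_pos (by positivity),
                inv_mul_cancel₀ hn.ne']
            · simp only [PH, phi]
              rw [inner_smul_left, inner_self_eq_norm_sq_to_K, norm_mul, RCLike.norm_conj,
                Complex.norm_real, Real.norm_eq_abs, abs_of_pos (by positivity)]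
              have : ‖((‖x.1 ξ‖ : ℂ)) ^ 2‖ = ‖x.1 ξ‖ ^ 2 := by simp
              erw [this]
              rw [sq, inv_mul_cancel_left₀ hn.ne']
              exact h
        · rintro ⟨η, hη, h⟩
          refine h.trans_le ?_
          calc ‖PH M x (ξ, η)‖ ≤ ‖η‖ * ‖x.1 ξ‖ := norm_inner_le_norm _ _
            _ ≤ 1 * ‖x.1 ξ‖ := by gcongr
            _ = _ := one_mul _
      rw [e]
      refine isOpen_biUnion fun η _ => ?_
      exact isOpen_lt continuous_const (by fun_prop)
    have hopen' : ∀ (ξ : H) (c : ℝ), IsOpen {x : Ball M | c < ‖(star x.1) ξ‖} := by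
      intro ξ c
      have e : {x : Ball M | c < ‖(star x.1) ξ‖} =
          ⋃ η ∈ {η : H | ‖η‖ ≤ 1}, {x : Ball M | c < ‖PH M x (η, ξ)‖} := by
        ext x
        have hadj : ∀ η : H, ⟪(star x.1) ξ, η⟫_ℂ = PH M x (η, ξ) := by
          intro η
          simp only [PH, phi]
          rw [ContinuousLinearMap.star_eq_adjoint, ContinuousLinearMap.adjoint_inner_left]
        simp only [Set.mem_setOf_eq, Set.mem_iUnion, exists_prop]
        constructor
        · intro h
          by_cases h0 : (star x.1) ξ = 0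
          · refine ⟨0, by simp, ?_⟩
            rw [h0, norm_zero] at h
            simpa [PH, phi] using h
          · have hn : 0 < ‖(star x.1) ξ‖ := norm_pos_iff.2 h0
            refine ⟨((‖(star x.1) ξ‖⁻¹ : ℝ) : ℂ) • (star x.1) ξ, ?_, ?_⟩
            · rw [norm_smul, Complex.norm_real, Real.norm_eq_abs, abs_of_pos (by positivity),
                inv_mul_cancel₀ hn.ne']
            · rw [← hadj, inner_smul_right, inner_self_eq_norm_sq_to_K, norm_mul,
                Complex.norm_real, Real.norm_eq_abs, abs_of_pos (by positivity)]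
              have : ‖((‖(star x.1) ξ‖ : ℂ)) ^ 2‖ = ‖(star x.1) ξ‖ ^ 2 := by simp
              erw [this]
              rw [sq, inv_mul_cancel_left₀ hn.ne']
              exact h
        · rintro ⟨η, hη, h⟩
          refine h.trans_le ?_
          rw [← hadj]
          calc ‖⟪(star x.1) ξ, η⟫_ℂ‖ ≤ ‖(star x.1) ξ‖ * ‖η‖ := norm_inner_le_norm _ _
            _ ≤ ‖(star x.1) ξ‖ * 1 := by gcongr
            _ = _ := mul_one _
      rw [e]
      refine isOpen_biUnion fun η _ => ?_
      exact isOpen_lt continuous_const (by fun_prop)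
    -- an isometry criterion
    have hiso : ∀ y ∈ M, ‖y‖ ≤ 1 → (∀ ξ ∈ T, ‖ξ‖ ≤ ‖y ξ‖) → star y * y = 1 := by
      intro y hy hy1 hyT
      have h1 : 1 - star y * y = 0 := by
        refine hTs _ (sub_mem (one_mem _) (mul_mem (star_mem hy) hy)) ?_
        intro ξ hξ
        change ξ - (star y) (y ξ) = 0
        have h2 : ‖ξ - (star y) (y ξ)‖ ^ 2 ≤ 0 := by
          rw [@norm_sub_sq ℂ]
          have h3 : RCLike.re ⟪ξ, (star y) (y ξ)⟫_ℂ = ‖y ξ‖ ^ 2 := by
            rw [ContinuousLinearMap.star_eq_adjoint, ContinuousLinearMap.adjoint_inner_right,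
              inner_self_eq_norm_sq_to_K]
            norm_cast
          rw [h3]
          have h4 : ‖(star y) (y ξ)‖ ≤ ‖y ξ‖ := by
            calc _ ≤ ‖star y‖ * ‖y ξ‖ := (star y).le_opNorm _
              _ ≤ 1 * ‖y ξ‖ := by gcongr; rw [norm_star]; exact hy1
              _ = _ := one_mul _
          have h5 : ‖y ξ‖ ≤ ‖ξ‖ := by
            calc _ ≤ ‖y‖ * ‖ξ‖ := y.le_opNorm _
              _ ≤ 1 * ‖ξ‖ := by gcongr
              _ = _ := one_mul _
          have h6 := hyT ξ hξ
          nlinarith [norm_nonneg ((star y) (y ξ)), norm_nonneg (y ξ), norm_nonneg ξ]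
        have h3 : ‖ξ - (star y) (y ξ)‖ = 0 := by nlinarith [norm_nonneg (ξ - (star y) (y ξ))]
        exact norm_eq_zero.1 h3
      exact (sub_eq_zero.1 h1).symm
    have hUe : U = (⋂ ξ ∈ T, ⋂ n : ℕ, {x : Ball M | ‖ξ‖ - 1 / ((n : ℝ) + 1) < ‖x.1 ξ‖}) ∩
        (⋂ ξ ∈ T, ⋂ n : ℕ, {x : Ball M | ‖ξ‖ - 1 / ((n : ℝ) + 1) < ‖(star x.1) ξ‖}) := by
      have hlim : ∀ a b : ℝ, (∀ n : ℕ, a - 1 / ((n : ℝ) + 1) < b) → a ≤ b := by
        intro a b h
        have ht : Tendsto (fun n : ℕ => a - 1 / ((n : ℝ) + 1)) atTop (𝓝 (a - 0)) :=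
          tendsto_const_nhds.sub tendsto_one_div_add_atTop_nhds_zero_nat
        rw [sub_zero] at ht
        exact le_of_tendsto' ht fun n => (h n).le
      have hnormeq : ∀ y : H →L[ℂ] H, star y * y = 1 → ∀ ξ, ‖y ξ‖ = ‖ξ‖ := by
        intro y hy ξ
        have h2 : ⟪y ξ, y ξ⟫_ℂ = ⟪ξ, ξ⟫_ℂ := by
          rw [← ContinuousLinearMap.adjoint_inner_right, ← ContinuousLinearMap.star_eq_adjoint]
          have : (star y) (y ξ) = ξ := congrArg (fun T : H →L[ℂ] H => T ξ) hy
          rw [this]
        rw [inner_self_eq_norm_sq_to_K, inner_self_eq_norm_sq_to_K] at h2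
        have h3 : ‖y ξ‖ ^ 2 = ‖ξ‖ ^ 2 := by exact_mod_cast h2
        exact (sq_eq_sq₀ (norm_nonneg _) (norm_nonneg _)).1 h3
      ext x
      simp only [Set.mem_inter_iff, Set.mem_iInter, Set.mem_setOf_eq]
      constructor
      · intro hx
        constructor
        · intro ξ _ n
          rw [hnormeq _ hx.1]
          have : 0 < 1 / ((n : ℝ) + 1) := by positivity
          linarith
        · intro ξ _ n
          rw [hnormeq _ (by rw [star_star]; exact hx.2)]
          have : 0 < 1 / ((n : ℝ) + 1) := by positivity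
          linarith
      · rintro ⟨h1, h2⟩
        refine ⟨hiso _ x.2.1 x.2.2 fun ξ hξ => hlim _ _ (h1 ξ hξ), ?_⟩
        have := hiso (star x.1) (star_mem x.2.1) (by rw [norm_star]; exact x.2.2)
          fun ξ hξ => hlim _ _ (h2 ξ hξ)
        rwa [star_star] at this
    rw [hUe]
    refine IsGδ.inter ?_ ?_
    · exact IsGδ.biInter hTc fun ξ _ => IsGδ.iInter fun n => (hopen _ _).isGδ
    · exact IsGδ.biInter hTc fun ξ _ => IsGδ.iInter fun n => (hopen' _ _).isGδ

end Pool.Agent.Results.MP_de1b00_an.ResidualUnitaries
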